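import Pool.Agent.TH482.Defs

/-!
# Gadgets together with spare parts

`exists_H2` is a variant of `Pool.Agent.TH482.exists_H` : besides the parts of the gadget there are
`s` spare parts, in which the covers may use arbitrary labels. A cover given by the gadget may
therefore miss `s` of the `k` edges: each of these is met in one of the spare parts. So the
condition `k δ < 1` is relaxed to `k δ < s + 1`.
-/

set_option autoImplicit false

namespace Pool.Agent.K9h60.CovNum

open Finset Pool.Agent.TH482

theorem exists_H2 {P X Ω : Type} [Fintype P] [Fintype X] [Fintype Ω] [Nonempty Ω]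
    (c : Ω → P → X) (t k r s : ℕ) (δ : ℝ) (h : Gad P X Ω c t δ) (hδ : 0 ≤ δ)
    (hr : Fintype.card P + 1 + s ≤ r) (hk : k * δ < s + 1) :
    ∃ (n : ℕ) (H : Finset (Fin r → Fin n)), IntCov k H ∧ t < tau H := by
  classical
  -- the map from the parts to `Option (P ⊕ Fin s)`
  have hcard : Fintype.card (Option (P ⊕ Fin s)) ≤ Fintype.card (Fin r) := by
    rw [Fintype.card_option, Fintype.card_sum, Fintype.card_fin, Fintype.card_fin]
    omega
  obtain ⟨emb⟩ := Function.Embedding.nonempty_of_card_le hcard
  set g : Fin r → Option (P ⊕ Fin s) := Function.invFun emb with hg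
  have hgs : ∀ o, ∃ i, g i = o := fun o => ⟨emb o, Function.leftInverse_invFun emb.injective o⟩
  have hr0 : 0 < r := by omega
  -- labels
  let V := Option X ⊕ Fin (t + 1)
  let φ : V ≃ Fin (Fintype.card V) := Fintype.equivFin V
  -- the covers; `E j` is the edge that is met in the spare part `j`
  let C : Ω → (Fin s → Fin r → Fin (Fintype.card V)) → Fin r → Fin (Fintype.card V) :=
    fun ω E i => match g i with
      | none => φ (Sum.inl none)
      | some (Sum.inl p) => φ (Sum.inl (some (c ω p)))
      | some (Sum.inr j) => E j i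
  have hC0 : ∀ ω E i, g i = none → C ω E i = φ (Sum.inl none) := by
    intro ω E i hi
    simp only [C, hi]
  have hC1 : ∀ ω E i p, g i = some (Sum.inl p) → C ω E i = φ (Sum.inl (some (c ω p))) := by
    intro ω E i p hi
    simp only [C, hi]
  have hC2 : ∀ ω E i j, g i = some (Sum.inr j) → C ω E i = E j i := by
    intro ω E i j hi
    simp only [C, hi]
  -- the points of the gadget which miss the edge `e` in the parts which are not spare
  let miss : (Fin r → Fin (Fintype.card V)) → Finset Ω := fun e => univ.filter (fun ω =>
    (∀ i, g i = none → φ (Sum.inl none) ≠ e i) ∧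
    ∀ i p, g i = some (Sum.inl p) → φ (Sum.inl (some (c ω p))) ≠ e i)
  let H : Finset (Fin r → Fin (Fintype.card V)) :=
    univ.filter (fun e => ((miss e).card : ℝ) ≤ δ * Fintype.card Ω)
  have hΩ : (0 : ℝ) < Fintype.card Ω := by exact_mod_cast Fintype.card_pos
  have hstar : ∀ ω ω' E E', ∃ i, C ω E i = C ω' E' i := by
    intro ω ω' E E'
    obtain ⟨i, hi⟩ := hgs none
    exact ⟨i, by rw [hC0 ω E i hi, hC0 ω' E' i hi]⟩
  have hCH : ∀ ω E, C ω E ∈ H := by
    intro ω E
    simp only [H, mem_filter, mem_univ, true_and]
    have : miss (C ω E) = ∅ := by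
      rw [Finset.eq_empty_iff_forall_notMem]
      intro ω' hω'
      simp only [miss, mem_filter, mem_univ, true_and] at hω'
      obtain ⟨i, hi⟩ := hgs none
      exact hω'.1 i hi (hC0 ω E i hi).symm
    rw [this, card_empty]
    simp only [Nat.cast_zero]
    positivity
  -- choice of covers
  have hcov : ∀ S : Finset (Fin r → Fin (Fintype.card V)), S ⊆ H → S.card ≤ k →
      ∃ ω E, ∀ e ∈ S, ∃ i, C ω E i = e i := by
    intro S hS hSk
    -- a point which misses at most `s` edges
    have hex : ∃ ω : Ω, (S.filter (fun e => ω ∈ miss e)).card ≤ s := by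
      by_contra hcon
      push Not at hcon
      have h1 : ((s : ℝ) + 1) * Fintype.card Ω ≤ ∑ e ∈ S, ((miss e).card : ℝ) := by
        have h2 : ∑ e ∈ S, (miss e).card = ∑ ω : Ω, (S.filter (fun e => ω ∈ miss e)).card := by
          simp only [card_eq_sum_ones, sum_filter]
          rw [sum_comm]
          refine sum_congr rfl fun e _ => ?_
          rw [← sum_filter]
          congr 1
          ext ω
          simp
        have h3 : Fintype.card Ω * (s + 1) ≤ ∑ ω : Ω, (S.filter (fun e => ω ∈ miss e)).card := by
          rw [← Finset.card_univ, ← smul_eq_mul, ← sum_const]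
          exact sum_le_sum fun ω _ => hcon ω
        rw [← h2] at h3
        have h4 : ((Fintype.card Ω * (s + 1) : ℕ) : ℝ) ≤ ((∑ e ∈ S, (miss e).card : ℕ) : ℝ) := by
          exact_mod_cast h3
        push_cast at h4
        linarith
      have h2 : ∑ e ∈ S, ((miss e).card : ℝ) ≤ ∑ e ∈ S, δ * Fintype.card Ω := by
        refine sum_le_sum fun e he => ?_
        have := hS he
        simp only [H, mem_filter, mem_univ, true_and] at this
        exact this
      rw [sum_const, nsmul_eq_mul] at h2
      have h3 : (S.card : ℝ) * (δ * Fintype.card Ω) ≤ k * (δ * Fintype.card Ω) := by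
        have : (S.card : ℝ) ≤ k := by exact_mod_cast hSk
        exact mul_le_mul_of_nonneg_right this (by positivity)
      have h4 : (k : ℝ) * (δ * Fintype.card Ω) < (s + 1) * Fintype.card Ω := by
        rw [← mul_assoc]
        exact mul_lt_mul_of_pos_right hk hΩ
      linarith
    obtain ⟨ω, hω⟩ := hex
    set B := S.filter (fun e => ω ∈ miss e) with hB
    -- the missed edges are indexed by the spare parts
    have hBcard : Fintype.card B ≤ Fintype.card (Fin s) := by
      rw [Fintype.card_coe, Fintype.card_fin]
      exact hω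
    obtain ⟨ι⟩ := Function.Embedding.nonempty_of_card_le hBcard
    let E : Fin s → Fin r → Fin (Fintype.card V) := fun j =>
      if hj : ∃ b : B, ι b = j then (hj.choose : Fin r → Fin (Fintype.card V))
      else fun _ => φ (Sum.inl none)
    have hE : ∀ b : B, E (ι b) = b := by
      intro b
      have hj : ∃ b' : B, ι b' = ι b := ⟨b, rfl⟩
      have h1 : E (ι b) = (hj.choose : Fin r → Fin (Fintype.card V)) := dif_pos hj
      rw [h1]
      have h2 := ι.injective hj.choose_spec
      rw [h2]
    refine ⟨ω, E, fun e he => ?_⟩
    by_cases hm : ω ∈ miss e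
    · have heB : e ∈ B := by
        rw [hB, mem_filter]
        exact ⟨he, hm⟩
      obtain ⟨i, hi⟩ := hgs (some (Sum.inr (ι ⟨e, heB⟩)))
      refine ⟨i, ?_⟩
      rw [hC2 ω E i _ hi, hE]
    · simp only [miss, mem_filter, mem_univ, true_and, not_and_or] at hm
      push Not at hm
      rcases hm with ⟨i, hi, hi2⟩ | ⟨i, p, hi, hi2⟩
      · exact ⟨i, by rw [hC0 ω E i hi, hi2]⟩
      · exact ⟨i, by rw [hC1 ω E i p hi, hi2]⟩
  refine ⟨Fintype.card V, H, ?_, ?_⟩
  · -- intersectingly covered
    let ω₀ : Ω := Classical.arbitrary Ω
    let E₀ : Fin s → Fin r → Fin (Fintype.card V) := fun _ _ => φ (Sum.inl none)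
    have key : ∀ S : Finset (Fin r → Fin (Fintype.card V)), ∃ ω E,
        S ⊆ H → S.card ≤ k → ∀ e ∈ S, ∃ i, C ω E i = e i := by
      intro S
      by_cases hS : S ⊆ H ∧ S.card ≤ k
      · obtain ⟨ω, E, hE⟩ := hcov S hS.1 hS.2
        exact ⟨ω, E, fun _ _ => hE⟩
      · exact ⟨ω₀, E₀, fun h1 h2 => absurd ⟨h1, h2⟩ hS⟩
    choose ωS ES hSS using key
    refine ⟨fun S => C (ωS S) (ES S), ?_, ?_⟩
    · intro S hS hk'
      exact ⟨hCH _ _, hSS S hS hk'⟩
    · intro S S' _ _ _ _
      exact hstar _ _ _ _
  · apply lt_tau _ _ hr0
    intro T hT hcovT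
    -- the deleted labels of the gadget
    let T' : Finset (P × X) := univ.filter (fun q =>
      ∃ i, g i = some (Sum.inl q.1) ∧ (i, φ (Sum.inl (some q.2))) ∈ T)
    have hT' : T'.card ≤ t := by
      refine le_trans ?_ hT
      have hch : ∀ q : P × X, q ∈ T' →
          ∃ i, g i = some (Sum.inl q.1) ∧ (i, φ (Sum.inl (some q.2))) ∈ T := by
        intro q hq
        simpa only [T', mem_filter, mem_univ, true_and] using hq
      let z : P × X → Fin r × Fin (Fintype.card V) := fun q =>
        if hq : q ∈ T' then ((hch q hq).choose, φ (Sum.inl (some q.2)))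
        else (⟨0, hr0⟩, φ (Sum.inl none))
      refine Finset.card_le_card_of_injOn z ?_ ?_
      · intro q hq
        have hq' : q ∈ T' := hq
        have hs : z q = ((hch q hq').choose, φ (Sum.inl (some q.2))) := dif_pos hq'
        rw [hs]
        exact (hch q hq').choose_spec.2
      · intro q hq q' hq' hqq
        have h1 : q ∈ T' := hq
        have h2 : q' ∈ T' := hq'
        have hs : z q = ((hch q h1).choose, φ (Sum.inl (some q.2))) := dif_pos h1
        have hs' : z q' = ((hch q' h2).choose, φ (Sum.inl (some q'.2))) := dif_pos h2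
        rw [hs, hs', Prod.mk.injEq] at hqq
        have hx := φ.injective hqq.2
        have hx := Option.some.inj (Sum.inl.inj hx)
        have e1 := (hch q h1).choose_spec.1
        have e2 := (hch q' h2).choose_spec.1
        rw [← hqq.1] at e2
        rw [e1] at e2
        simp only [Option.some.injEq, Sum.inl.injEq] at e2
        exact Prod.ext e2 hx
    obtain ⟨e, he1, he2⟩ := h T' hT'
    -- the dummies
    have hdum : ∀ i : Fin r, ∃ a : Fin (t + 1), (i, φ (Sum.inr a)) ∉ T := by
      intro i
      by_contra hcon
      push Not at hcon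
      have hle : Fintype.card (Fin (t + 1)) ≤ T.card := by
        rw [← Finset.card_univ]
        refine Finset.card_le_card_of_injOn (fun a => (i, φ (Sum.inr a))) ?_ ?_
        · intro a _
          exact hcon a
        · intro a _ b _ hab
          simp only [Prod.mk.injEq, true_and] at hab
          exact Sum.inr.inj (φ.injective hab)
      rw [Fintype.card_fin] at hle
      omega
    choose dum hdum using hdum
    let f : Option (P ⊕ Fin s) → Option X := fun o => match o with
      | some (Sum.inl p) => e p
      | _ => none
    let lab : Fin r → Fin (Fintype.card V) := fun i =>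
      match f (g i) with
      | some x => φ (Sum.inl (some x))
      | none => φ (Sum.inr (dum i))
    have hlab1 : ∀ i x, f (g i) = some x → lab i = φ (Sum.inl (some x)) := by
      intro i x hi
      simp only [lab, hi]
    have hlab2 : ∀ i, f (g i) = none → lab i = φ (Sum.inr (dum i)) := by
      intro i hi
      simp only [lab, hi]
    have hlabH : lab ∈ H := by
      simp only [H, mem_filter, mem_univ, true_and]
      apply he2
      intro ω hω p hp
      simp only [miss, mem_filter, mem_univ, true_and] at hω
      obtain ⟨i, hi⟩ := hgs (some (Sum.inl p))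
      apply hω.2 i p hi
      rw [hlab1 i (c ω p) (by rw [hi]; exact hp)]
    obtain ⟨i, hi⟩ := hcovT lab hlabH
    rcases hge : f (g i) with _ | x
    · rw [hlab2 i hge] at hi
      exact hdum i hi
    · rw [hlab1 i x hge] at hi
      rcases hgi : g i with _ | (p | j)
      · rw [hgi] at hge
        simp [f] at hge
      · rw [hgi] at hge
        refine he1 p x hge ?_
        simp only [T', mem_filter, mem_univ, true_and]
        exact ⟨i, hgi, hi⟩
      · rw [hgi] at hge
        simp [f] at hge

end Pool.Agent.K9h60.CovNum
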