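import Pool.Agent.TH482.Lower
import Pool.Agent.TH482.Upper2
import Pool.Agent.K9h60.CovNum.Spare

/-!
# The lower bound with spare parts
-/

set_option autoImplicit false

namespace Pool.Agent.K9h60.CovNum

open Finset Pool.Agent.TH482

/-- one value of the parameters -/
theorem lower_step2 (r k b J m s : ℕ) (hb : 1 ≤ b) [Fact m.Prime]
    (hm : 4 * Real.exp (120000 * (b : ℝ) ^ 4) ≤ m) (hr : 8 * J * m + 1 + s ≤ r)
    (hk : (k : ℝ) * (2 / b) ^ J < s + 1) (hb2 : 2 ≤ b) :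
    ∃ (n : ℕ) (H : Finset (Fin r → Fin n)), IntCov k H ∧ J * (m ^ 2 / 8) < tau H := by
  classical
  have hm0 : 0 < m := (Fact.out : m.Prime).pos
  have : NeZero m := ⟨hm0.ne'⟩
  have hb1 : (1 : ℝ) ≤ b := by exact_mod_cast hb
  have hbm : b ≤ m := by
    have h1 : (b : ℝ) ≤ m := by
      have h2 := Real.add_one_le_exp (120000 * (b : ℝ) ^ 4)
      have h3 : (b : ℝ) ^ 1 ≤ (b : ℝ) ^ 4 := pow_le_pow_right₀ hb1 (by norm_num)
      rw [pow_one] at h3
      have h0 : (0 : ℝ) ≤ (b : ℝ) ^ 4 := by positivity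
      linarith
    exact_mod_cast h1
  have hu : Function.Injective (fun l : Fin b => ((l : ℕ) : ZMod m)) := by
    intro l l' h
    have h' : ((l : ℕ) : ZMod m) = ((l' : ℕ) : ZMod m) := h
    rw [ZMod.natCast_eq_natCast_iff'] at h'
    rw [Nat.mod_eq_of_lt (lt_of_lt_of_le l.2 hbm), Nat.mod_eq_of_lt (lt_of_lt_of_le l'.2 hbm)] at h'
    exact Fin.ext h'
  have hg := base_gad b hb (ZMod m) (fun l : Fin b => ((l : ℕ) : ZMod m)) hu
    (by rw [ZMod.card]; exact hm)
  rw [ZMod.card] at hg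
  have hδ1 : (2 : ℝ) / b ≤ 1 := by
    rw [div_le_one (by linarith)]
    exact_mod_cast hb2
  have hg2 := gad_prod _ _ J _ (by positivity) hδ1 hg
  have : Nonempty (Fin (2 * J) → Fin b × ZMod m) := ⟨fun _ => (⟨0, hb⟩, 0)⟩
  refine exists_H2 _ _ k r s _ hg2 (by positivity) ?_ hk
  rw [Fintype.card_prod, Fintype.card_prod, ZMod.card, Fintype.card_fin, Fintype.card_fin]
  nlinarith

/-- **The lower bound.** With `l = 1 + log (k / r)` there is a `k`-intersectingly covered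
`r`-partite `r`-graph with cover number at least `c r² min (1, log log (r / l) / l)`. -/
theorem lower2 : ∃ C : ℝ, 0 < C ∧ ∀ r k : ℕ, 0 < r → r ≤ k →
    C * (1 + Real.log ((k : ℝ) / r)) ≤ r →
    ∃ (n : ℕ) (H : Finset (Fin r → Fin n)), IntCov k H ∧
      1 / 163840 * (r : ℝ) ^ 2 * min 1 (Real.log (Real.log (r / (1 + Real.log ((k : ℝ) / r)))) /
        (1 + Real.log ((k : ℝ) / r))) ≤ tau H := by
  -- the constants
  obtain ⟨lam0, hlam0, hlam0'⟩ : ∃ l0 : ℝ, 1 ≤ l0 ∧ ∀ l : ℝ, l0 ≤ l →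
      6 ≤ l ^ (1 / 5 : ℝ) ∧ 3 * l ^ (1 / 5 : ℝ) ≤ (l / 480000) ^ (1 / 4 : ℝ) := by
    set a : ℝ := max 6 (3 * (480000 : ℝ) ^ (1 / 4 : ℝ)) with ha
    have ha6 : 6 ≤ a := le_max_left _ _
    have ha3 : 3 * (480000 : ℝ) ^ (1 / 4 : ℝ) ≤ a := le_max_right _ _
    have ha0 : 0 < a := by linarith
    refine ⟨a ^ (20 : ℝ), Real.one_le_rpow (by linarith) (by norm_num), fun l hl => ?_⟩
    have hl0 : 0 < l := lt_of_lt_of_le (Real.rpow_pos_of_pos ha0 _) hl
    have h1 : a ≤ l ^ (1 / 20 : ℝ) := by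
      have := Real.rpow_le_rpow (Real.rpow_pos_of_pos ha0 20).le hl (show (0 : ℝ) ≤ 1 / 20 by norm_num)
      rw [← Real.rpow_mul ha0.le] at this
      norm_num at this
      norm_num
      exact this
    have h20 : 1 ≤ l ^ (1 / 20 : ℝ) := by linarith
    have hl1 : 1 ≤ l := by
      by_contra hcon
      push Not at hcon
      have := Real.rpow_lt_one hl0.le hcon (show (0 : ℝ) < 1 / 20 by norm_num)
      linarith
    constructor
    · calc (6 : ℝ) ≤ a := ha6
        _ ≤ l ^ (1 / 20 : ℝ) := h1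
        _ ≤ l ^ (1 / 5 : ℝ) := Real.rpow_le_rpow_of_exponent_le hl1 (by norm_num)
    · rw [Real.div_rpow hl0.le (by norm_num), le_div_iff₀ (by positivity)]
      calc 3 * l ^ (1 / 5 : ℝ) * (480000 : ℝ) ^ (1 / 4 : ℝ)
          = l ^ (1 / 5 : ℝ) * (3 * (480000 : ℝ) ^ (1 / 4 : ℝ)) := by ring
        _ ≤ l ^ (1 / 5 : ℝ) * l ^ (1 / 20 : ℝ) :=
            mul_le_mul_of_nonneg_left (ha3.trans h1) (Real.rpow_nonneg hl0.le _)
        _ = l ^ (1 / 4 : ℝ) := by rw [← Real.rpow_add hl0]; norm_num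
  set C : ℝ := Real.exp lam0 + 128 ^ 2 with hC
  have hC0 : 0 < C := by positivity
  refine ⟨C, hC0, ?_⟩
  intro r k hrpos hrk hCr
  have hr0 : (0 : ℝ) < r := by exact_mod_cast hrpos
  have hk0 : (0 : ℝ) < k := lt_of_lt_of_le hr0 (by exact_mod_cast hrk)
  set l : ℝ := 1 + Real.log ((k : ℝ) / r) with hl
  have hkr1 : 1 ≤ (k : ℝ) / r := by
    rw [one_le_div hr0]
    exact_mod_cast hrk
  have hl1 : 1 ≤ l := by
    have := Real.log_nonneg hkr1
    linarith
  have hlk : 0 < l := by linarith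
  set x : ℝ := r / l with hx
  have hxC : C ≤ x := by rw [hx, le_div_iff₀ hlk]; exact hCr
  have hx0 : 0 < x := by linarith
  have hx128 : (128 : ℝ) ^ 2 ≤ x := by
    have := Real.exp_pos lam0
    linarith
  set lam : ℝ := Real.log x with hlam
  have hlam1 : lam0 ≤ lam := by
    rw [hlam, Real.le_log_iff_exp_le hx0]
    have : (0 : ℝ) ≤ 128 ^ 2 := by norm_num
    linarith
  have hlampos : 0 < lam := by linarith
  obtain ⟨hl6, hl3⟩ := hlam0' lam hlam1
  have hxr : x * l = r := by rw [hx]; field_simp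
  -- `b`
  set b : ℕ := ⌊(lam / 480000) ^ (1 / 4 : ℝ)⌋₊ with hbdef
  have hbpos : (0 : ℝ) ≤ (lam / 480000) ^ (1 / 4 : ℝ) := by positivity
  have hble : (b : ℝ) ≤ (lam / 480000) ^ (1 / 4 : ℝ) := Nat.floor_le hbpos
  have hbgt : (lam / 480000) ^ (1 / 4 : ℝ) < b + 1 := Nat.lt_floor_add_one _
  have hb2lam : 2 * lam ^ (1 / 5 : ℝ) ≤ b := by linarith
  have hb12 : (12 : ℝ) ≤ b := by linarith
  have hb12' : 12 ≤ b := by exact_mod_cast hb12
  have hb4 : (b : ℝ) ^ 4 ≤ lam / 480000 := by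
    calc (b : ℝ) ^ 4 ≤ ((lam / 480000) ^ (1 / 4 : ℝ)) ^ 4 := pow_le_pow_left₀ (by linarith) hble 4
      _ = lam / 480000 := by
        rw [← Real.rpow_natCast, ← Real.rpow_mul (by positivity)]
        norm_num
  -- `L`
  set L : ℝ := Real.log (b / 2) with hL
  have hL1 : 1 / 5 * Real.log lam ≤ L := by
    rw [hL, ← Real.log_rpow hlampos]
    refine Real.log_le_log (Real.rpow_pos_of_pos hlampos _) ?_
    linarith
  have hLone : 1 ≤ L := by
    rw [hL, Real.le_log_iff_exp_le (by linarith)]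
    have := Real.exp_one_lt_d9
    linarith
  have hL0 : 0 < L := by linarith
  -- `J`
  set J : ℕ := ⌊l / L⌋₊ + 1 with hJdef
  have hJcast : (J : ℝ) = (⌊l / L⌋₊ : ℝ) + 1 := by rw [hJdef]; push_cast; rfl
  have hJ1 : l < J * L := by
    have h1 := Nat.lt_floor_add_one (l / L)
    rw [div_lt_iff₀ hL0] at h1
    rw [hJcast]
    exact h1
  have hJ2 : (J : ℝ) ≤ l / L + 1 := by
    have h1 : ((⌊l / L⌋₊ : ℕ) : ℝ) ≤ l / L := Nat.floor_le (by positivity)
    rw [hJcast]
    linarith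
  have hJ3 : (J : ℝ) ≤ 2 * l := by
    have h1 : l / L ≤ l := div_le_self hlk.le hLone
    linarith
  have hJpos : 0 < J := Nat.succ_pos _
  have hJr : (1 : ℝ) ≤ J := by exact_mod_cast hJpos
  -- the spare parts
  set s : ℕ := r / 2 with hs2
  set R : ℕ := r - s with hR
  have hsr : s ≤ r := Nat.div_le_self _ _
  have hR2 : r ≤ 2 * R := by omega
  have hs3 : (r : ℝ) < 2 * (s + 1) := by
    have : r < 2 * (s + 1) := by omega
    exact_mod_cast this
  -- `m`
  have hr16 : 16 * J ≤ R - 1 := by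
    have h1 : (2 * (16 * J + 1) : ℝ) ≤ r := by
      rw [← hxr]
      nlinarith
    have h2 : 2 * (16 * J + 1) ≤ r := by exact_mod_cast h1
    omega
  set y : ℕ := (R - 1) / (16 * J) with hy
  have hy0 : y ≠ 0 := by
    have : 0 < y := Nat.div_pos hr16 (by omega)
    omega
  obtain ⟨m, hmp, hym, hmy⟩ := Nat.exists_prime_lt_and_le_two_mul y hy0
  have : Fact m.Prime := ⟨hmp⟩
  have hyr : y * (16 * J) ≤ R - 1 := Nat.div_mul_le_self _ _
  have hR1 : 1 ≤ R := by omega
  have hrm : 8 * J * m + 1 + s ≤ r := by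
    have h1 : 8 * J * m ≤ 8 * J * (2 * y) := Nat.mul_le_mul_left _ hmy
    have h2 : 8 * J * (2 * y) = y * (16 * J) := by ring
    omega
  have hrm2 : r ≤ 32 * J * m := by
    have h1 : R - 1 < 16 * J * (y + 1) := by
      rw [hy]
      exact Nat.lt_mul_div_succ _ (by omega)
    have h2 : 16 * J * (y + 1) ≤ 16 * J * m := Nat.mul_le_mul_left _ hym
    have h3 : 32 * J * m = 2 * (16 * J * m) := by ring
    omega
  have hrm2' : (r : ℝ) ≤ 32 * J * m := by exact_mod_cast hrm2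
  -- the size of `m`
  have hmx : x ≤ 64 * m := by
    have hm0 : (0 : ℝ) ≤ m := Nat.cast_nonneg m
    have h2 : x * l ≤ 64 * m * l := by
      rw [hxr]
      calc (r : ℝ) ≤ 32 * J * m := hrm2'
        _ ≤ 32 * (2 * l) * m := by
          refine mul_le_mul_of_nonneg_right ?_ hm0
          linarith
        _ = _ := by ring
    exact le_of_mul_le_mul_right h2 hlk
  have hmexp : 4 * Real.exp (120000 * (b : ℝ) ^ 4) ≤ m := by
    have h1 : Real.exp (120000 * (b : ℝ) ^ 4) ≤ Real.exp (lam / 4) := by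
      rw [Real.exp_le_exp]
      linarith
    set v : ℝ := Real.exp (lam / 4) with hv
    have hv0 : 0 < v := Real.exp_pos _
    have hv4 : v ^ 4 = x := by
      rw [hv, ← Real.exp_nat_mul]
      push_cast
      rw [show (4 : ℝ) * (lam / 4) = lam by ring, hlam, Real.exp_log hx0]
    have hv11 : 11 ≤ v := by
      by_contra hcon
      push Not at hcon
      have : v ^ 4 < 11 ^ 4 := pow_lt_pow_left₀ hcon hv0.le (by norm_num)
      rw [hv4] at this
      norm_num at this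
      norm_num at hx128
      linarith
    have hv3 : 256 * v ≤ x := by
      rw [← hv4]
      have h3 : (11 : ℝ) ^ 3 ≤ v ^ 3 := pow_le_pow_left₀ (by norm_num) hv11 3
      nlinarith
    linarith
  have hkδ : (k : ℝ) * (2 / b) ^ J < s + 1 := by
    have hb0 : (0 : ℝ) < b := by linarith
    have h1 : (2 / (b : ℝ)) ^ J = Real.exp (-(J * L)) := by
      have h2 : (2 / (b : ℝ)) = Real.exp (-L) := by
        rw [hL, Real.exp_neg, Real.exp_log (by positivity), inv_div]
      rw [h2, ← Real.exp_nat_mul]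
      ring_nf
    rw [h1]
    have h3 : Real.exp (-(J * L)) < Real.exp (-l) := by
      rw [Real.exp_lt_exp]
      linarith
    have h4 : Real.exp l = Real.exp 1 * ((k : ℝ) / r) := by
      rw [hl, Real.exp_add, Real.exp_log (by positivity)]
    have h5 : Real.exp (-l) = (Real.exp 1)⁻¹ * (r / k) := by
      rw [Real.exp_neg, h4, mul_inv, inv_div]
    have he : (2 : ℝ) < Real.exp 1 := by
      have := Real.exp_one_gt_d9
      linarith
    have he' : (Real.exp 1)⁻¹ < 1 / 2 := by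
      rw [inv_eq_one_div]
      exact one_div_lt_one_div_of_lt (by norm_num) he
    calc (k : ℝ) * Real.exp (-(J * L)) ≤ k * Real.exp (-l) := by
          exact mul_le_mul_of_nonneg_left h3.le hk0.le
      _ = (Real.exp 1)⁻¹ * r := by
          rw [h5]
          field_simp
      _ ≤ 1 / 2 * r := mul_le_mul_of_nonneg_right he'.le hr0.le
      _ < s + 1 := by linarith
  obtain ⟨n, H, hH, htau⟩ := lower_step2 r k b J m s (by omega) hmexp hrm hkδ (by omega)
  refine ⟨n, H, hH, ?_⟩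
  have hm4 : (4 : ℝ) ≤ m := by
    have := Real.add_one_le_exp (120000 * (b : ℝ) ^ 4)
    have : (0 : ℝ) ≤ 120000 * (b : ℝ) ^ 4 := by positivity
    linarith
  have hm4' : 4 ≤ m := by exact_mod_cast hm4
  have ht : (J : ℝ) * (m : ℝ) ^ 2 / 16 ≤ tau H := by
    have h1 : J * (m ^ 2 / 8) ≤ tau H := htau.le
    have h2 : m ^ 2 ≤ 16 * (m ^ 2 / 8) := by
      have : 16 ≤ m ^ 2 := by nlinarith
      omega
    have h3 : J * m ^ 2 ≤ 16 * tau H := by
      calc J * m ^ 2 ≤ J * (16 * (m ^ 2 / 8)) := Nat.mul_le_mul_left _ h2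
        _ = 16 * (J * (m ^ 2 / 8)) := by ring
        _ ≤ _ := Nat.mul_le_mul_left _ h1
    have h4 : (J : ℝ) * (m : ℝ) ^ 2 ≤ 16 * tau H := by exact_mod_cast h3
    linarith
  refine le_trans ?_ ht
  have hJ0 : (0 : ℝ) < J := by linarith
  have hr2 : (r : ℝ) ^ 2 ≤ 1024 * J * (J * (m : ℝ) ^ 2) := by
    calc (r : ℝ) ^ 2 ≤ (32 * J * m) ^ 2 := pow_le_pow_left₀ hr0.le hrm2' 2
      _ = _ := by ring
  -- final computation
  set μ : ℝ := min 1 (L / l) with hμ
  have hμ0 : 0 ≤ μ := le_min (by norm_num) (by positivity)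
  have hμ1 : min 1 (Real.log lam / l) ≤ 5 * μ := by
    rcases le_total 1 (L / l) with h | h
    · rw [hμ, min_eq_left h]
      exact (min_le_left _ _).trans (by norm_num)
    · rw [hμ, min_eq_right h]
      refine (min_le_right _ _).trans ?_
      rw [← mul_div_assoc]
      exact div_le_div_of_nonneg_right (by linarith) hlk.le
  have hJμ : (J : ℝ) * μ ≤ 2 := by
    have h1 : (J : ℝ) * μ ≤ (l / L + 1) * μ := mul_le_mul_of_nonneg_right hJ2 hμ0
    have h2 : l / L * μ ≤ l / L * (L / l) := mul_le_mul_of_nonneg_left (min_le_right _ _) (by positivity)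
    have h3 : l / L * (L / l) = 1 := by field_simp
    have h4 : μ ≤ 1 := min_le_left _ _
    nlinarith
  have hJm : 0 ≤ (J : ℝ) * (m : ℝ) ^ 2 := by positivity
  calc 1 / 163840 * (r : ℝ) ^ 2 * min 1 (Real.log lam / l)
      ≤ 1 / 163840 * (r : ℝ) ^ 2 * (5 * μ) := mul_le_mul_of_nonneg_left hμ1 (by positivity)
    _ ≤ 1 / 163840 * (1024 * J * (J * (m : ℝ) ^ 2)) * (5 * μ) := by
        refine mul_le_mul_of_nonneg_right ?_ (by positivity)
        exact mul_le_mul_of_nonneg_left hr2 (by norm_num)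
    _ = (J * (m : ℝ) ^ 2) / 32 * (J * μ) := by ring
    _ ≤ (J * (m : ℝ) ^ 2) / 32 * 2 := mul_le_mul_of_nonneg_left hJμ (by positivity)
    _ = _ := by ring

end Pool.Agent.K9h60.CovNum
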