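import Pool.Agent.K9h60.CovNum.Lower

/-!
# The order of magnitude of `f_r(k)` for `k` up to `r` times a power of `log r`
-/

set_option autoImplicit false

namespace Pool.Agent.K9h60.CovNum

open Finset Pool.Agent.TH482 Filter

theorem eventually_large (M : ℝ) : ∃ R : ℕ, ∀ r : ℕ, R ≤ r →
    2 ≤ Real.log (Real.log r) ∧ M * Real.log r ≤ Real.sqrt r := by
  have h1 : Tendsto (fun r : ℕ => Real.log (Real.log (r : ℝ))) atTop atTop :=
    Real.tendsto_log_atTop.comp (Real.tendsto_log_atTop.comp tendsto_natCast_atTop_atTop)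
  have h2 : ∀ᶠ x : ℝ in atTop, M * Real.log x ≤ Real.sqrt x := by
    have h3 := (isLittleO_log_rpow_atTop (show (0 : ℝ) < 1 / 2 by norm_num)).bound
      (show (0 : ℝ) < 1 / (|M| + 1) by positivity)
    filter_upwards [h3, eventually_ge_atTop 1] with x hx hx1
    have hl : 0 ≤ Real.log x := Real.log_nonneg hx1
    rw [Real.norm_of_nonneg hl, Real.norm_of_nonneg (Real.rpow_nonneg (by linarith) _),
      ← Real.sqrt_eq_rpow, div_mul_eq_mul_div, one_mul, le_div_iff₀ (by positivity)] at hx
    have h4 : M ≤ |M| := le_abs_self M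
    nlinarith
  have h3 := h1.eventually_ge_atTop 2
  have h4 := tendsto_natCast_atTop_atTop.eventually h2
  obtain ⟨R, hR⟩ := eventually_atTop.1 (h3.and h4)
  exact ⟨R, fun r hr => hR r hr⟩

/-- the order of magnitude of `f_r(k)` is `r²` for `r < k ≤ r (log r) ^ A` -/
theorem order (A' : ℝ) (hA1 : 1 ≤ A') : ∃ R : ℕ, ∀ r k : ℕ, R ≤ r → r < k →
    (k : ℝ) ≤ r * Real.log r ^ A' →
      (∃ (n : ℕ) (H : Finset (Fin r → Fin n)), IntCov k H ∧
        1 / 655360 / A' * (r : ℝ) ^ 2 ≤ tau H) ∧
      ∀ (n : ℕ) (H : Finset (Fin r → Fin n)), IntCov k H → (tau H : ℝ) ≤ 200 * (r : ℝ) ^ 2 := by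
  obtain ⟨C, hC, hlow⟩ := lower2
  have hAA : A' ≤ A' := le_rfl
  obtain ⟨R, hR⟩ := eventually_large ((C + 1) * (A' + 1) + 1)
  refine ⟨max R 1, ?_⟩
  intro r k hr hrk hkA
  obtain ⟨hu, hM⟩ := hR r (le_trans (le_max_left _ _) hr)
  have hr1 : 1 ≤ r := le_trans (le_max_right _ _) hr
  have hr1' : (1 : ℝ) ≤ r := by exact_mod_cast hr1
  have hr0 : (0 : ℝ) < r := by linarith
  have hk0 : (0 : ℝ) < k := lt_of_lt_of_le hr0 (by exact_mod_cast hrk.le)
  set v : ℝ := Real.log r with hv
  set u : ℝ := Real.log v with hu'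
  have hv0 : 0 < v := by
    by_contra hcon
    rw [not_lt] at hcon
    have h0 : 0 ≤ v := Real.log_nonneg hr1'
    have h1 : v = 0 := le_antisymm hcon h0
    rw [hu', h1, Real.log_zero] at hu
    linarith
  have huv : u ≤ v := (Real.log_le_sub_one_of_pos hv0).trans (by linarith)
  have hv1 : 1 ≤ v := by
    by_contra hcon
    push Not at hcon
    have := Real.log_nonpos hv0.le hcon.le
    linarith
  -- `l`
  set l : ℝ := 1 + Real.log ((k : ℝ) / r) with hl
  have hkr1 : 1 ≤ (k : ℝ) / r := by
    rw [one_le_div hr0]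
    exact_mod_cast hrk.le
  have hl1 : 1 ≤ l := by
    have := Real.log_nonneg hkr1
    linarith
  have hl2 : l ≤ (A' + 1) * u := by
    have h1 : (k : ℝ) / r ≤ v ^ A' := by
      rw [div_le_iff₀ hr0, mul_comm]
      refine hkA.trans (mul_le_mul_of_nonneg_left ?_ hr0.le)
      exact Real.rpow_le_rpow_of_exponent_le hv1 hAA
    have h2 : Real.log ((k : ℝ) / r) ≤ A' * u := by
      have h3 := Real.log_le_log (by positivity) h1
      rwa [Real.log_rpow hv0] at h3
    rw [hl]
    linarith
  have hl3 : l ≤ (A' + 1) * v := hl2.trans (mul_le_mul_of_nonneg_left huv (by linarith))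
  have hsq : Real.sqrt r ≤ r := by
    rw [Real.sqrt_le_left (by linarith)]
    nlinarith
  have hAv : 0 ≤ (A' + 1) * v := by positivity
  have hCl : C * l ≤ r := by
    have h1 : C * l ≤ C * ((A' + 1) * v) := mul_le_mul_of_nonneg_left hl3 hC.le
    nlinarith
  have hls : l ≤ Real.sqrt r := by
    have h1 : 0 ≤ C * ((A' + 1) * v) := by positivity
    nlinarith
  have hlogk : Real.log k ≤ r := by
    have h1 : Real.log k = v + (l - 1) := by
      rw [hl, Real.log_div hk0.ne' hr0.ne', hv]
      ring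
    have h2 : 0 ≤ C * ((A' + 1) * v) := by positivity
    nlinarith
  refine ⟨?_, ?_⟩
  · obtain ⟨n, H, hH, ht⟩ := hlow r k (by omega) hrk.le hCl
    refine ⟨n, H, hH, le_trans ?_ ht⟩
    have h1 : 1 / (2 * (A' + 1)) ≤ min 1 (Real.log (Real.log (r / l)) / l) := by
      refine le_min ?_ ?_
      · rw [div_le_one (by positivity)]
        linarith
      · have h2 : Real.sqrt r ≤ r / l := by
          rw [le_div_iff₀ (by linarith)]
          calc Real.sqrt r * l ≤ Real.sqrt r * Real.sqrt r :=
                mul_le_mul_of_nonneg_left hls (Real.sqrt_nonneg _)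
            _ = r := Real.mul_self_sqrt hr0.le
        have h3 : v / 2 ≤ Real.log (r / l) := by
          have h4 := Real.log_le_log (Real.sqrt_pos.2 hr0) h2
          rwa [Real.log_sqrt hr0.le] at h4
        have h4 : u - Real.log 2 ≤ Real.log (Real.log (r / l)) := by
          have h5 := Real.log_le_log (by positivity) h3
          rwa [Real.log_div hv0.ne' (by norm_num)] at h5
        have h5 : Real.log 2 ≤ 1 := by
          have := Real.log_two_lt_d9
          linarith
        have h6 : u / 2 ≤ Real.log (Real.log (r / l)) := by linarith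
        rw [div_le_div_iff₀ (by positivity) (by linarith)]
        nlinarith
    have h7 : 1 / 655360 / A' ≤ 1 / 163840 * (1 / (2 * (A' + 1))) := by
      rw [div_div, div_mul_div_comm, div_le_div_iff₀ (by positivity) (by positivity)]
      linarith
    calc 1 / 655360 / A' * (r : ℝ) ^ 2
        ≤ 1 / 163840 * (1 / (2 * (A' + 1))) * (r : ℝ) ^ 2 :=
          mul_le_mul_of_nonneg_right h7 (by positivity)
      _ = 1 / 163840 * (r : ℝ) ^ 2 * (1 / (2 * (A' + 1))) := by ring
      _ ≤ _ := mul_le_mul_of_nonneg_left h1 (by positivity)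
  · intro n H hH
    refine (upper r k hr1 hrk hlogk n H hH).trans ?_
    have hvk : v ≤ Real.log k := Real.log_le_log hr0 (by exact_mod_cast hrk.le)
    have hk1 : 1 ≤ Real.log k := hv1.trans hvk
    have h1 : Real.log (r / Real.log k) ≤ Real.log k := by
      rw [Real.log_div hr0.ne' (by linarith)]
      have := Real.log_nonneg hk1
      linarith
    calc 100 * ((r : ℝ) ^ 2 / Real.log k) * (1 + Real.log (r / Real.log k))
        ≤ 100 * ((r : ℝ) ^ 2 / Real.log k) * (2 * Real.log k) :=
          mul_le_mul_of_nonneg_left (by linarith) (by positivity)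
      _ = 200 * (r : ℝ) ^ 2 := by field_simp; ring

end Pool.Agent.K9h60.CovNum
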